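import Mathlib

/-! Statements for project RB: for a product `F` of `d ≥ 4` pairwise independent integral linear
forms, only `O(X ^ (4/5 + δ + ε))` integers `R ≤ X` are the radical of a value `F(x,y)`, `x, y`
coprime, with `log log max(|x|,|y|) ≤ X ^ δ`. -/

namespace Pool.Agent.W223.RB

open Finset

noncomputable section

variable {d : ℕ}

/-- The linear form `α_i x + β_i y`. -/
def V (α β : Fin d → ℤ) (i : Fin d) (x y : ℤ) : ℤ := α i * x + β i * y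

/-- The product of the forms. -/
def F (α β : Fin d → ℤ) (x y : ℤ) : ℤ := ∏ i, V α β i x y

/-- At least four pairwise independent forms. -/
def Good (α β : Fin d → ℤ) : Prop := 4 ≤ d ∧ ∀ i j, i ≠ j → α i * β j ≠ α j * β i

/-- Coprime points with `F ≠ 0`. -/
def Pt (α β : Fin d → ℤ) (x y : ℤ) : Prop := IsCoprime x y ∧ F α β x y ≠ 0

/-- `log max(|x|,|y|)`. -/
def lH (x y : ℤ) : ℝ := Real.log (max |(x : ℝ)| |(y : ℝ)|)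

/-- `ℓ ≤ log H ≤ (33/32) ℓ`. -/
def Scale (ℓ : ℝ) (x y : ℤ) : Prop := ℓ ≤ lH x y ∧ lH x y ≤ 33 / 32 * ℓ

/-- The exponent of `q` in `V_i`. -/
def vq (α β : Fin d → ℤ) (i : Fin d) (x y : ℤ) (q : ℕ) : ℕ := (V α β i x y).natAbs.factorization q

/-- The part of `F` prime to `S` is at most `H ^ (d - 17/8)`. -/
def Light (α β : Fin d → ℤ) (S : Finset ℕ) (x y : ℤ) : Prop :=
  Real.log |(F α β x y : ℝ)| - ((d : ℝ) - 17 / 8) * lH x y ≤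
    ∑ q ∈ S, ((F α β x y).natAbs.factorization q : ℝ) * Real.log q

/-- The two points are in the same cell. -/
def Near (α β : Fin d → ℤ) (S : Finset ℕ) (ℓ : ℝ) (x₁ y₁ x₂ y₂ : ℤ) : Prop :=
  (∀ i : Fin d, ∀ q ∈ S, |((vq α β i x₁ y₁ q : ℝ) - (vq α β i x₂ y₂ q : ℝ)) * Real.log q| ≤
    ℓ / (32 * d * (S.card + 1))) ∧
  ∃ i₀ : Fin d, (∀ i, |V α β i₀ x₁ y₁| ≤ |V α β i x₁ y₁|) ∧
    ∀ i, |V α β i₀ x₂ y₂| ≤ |V α β i x₂ y₂|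

/-- BCEL: few cells. -/
def StmtBCEL : Prop := ∀ (d : ℕ) (α β : Fin d → ℤ), Good α β → ∃ K : ℕ, ∀ (S : Finset ℕ) (ℓ : ℝ),
  (∀ q ∈ S, q.Prime) → 1 ≤ ℓ → ∃ Φ : ℤ × ℤ → Fin (2 ^ (K * (S.card + 1))),
    ∀ x₁ y₁ x₂ y₂ : ℤ, Pt α β x₁ y₁ → Pt α β x₂ y₂ → Scale ℓ x₁ y₁ → Scale ℓ x₂ y₂ →
      Φ (x₁, y₁) = Φ (x₂, y₂) → Near α β S ℓ x₁ y₁ x₂ y₂

/-- BGP: gap principle, one cell contains one light point. -/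
def StmtBGP : Prop := ∀ (d : ℕ) (α β : Fin d → ℤ), Good α β → ∃ ℓ₀ : ℝ, 1 ≤ ℓ₀ ∧
  ∀ (S : Finset ℕ) (ℓ : ℝ), (∀ q ∈ S, q.Prime) → ℓ₀ ≤ ℓ → ∀ x₁ y₁ x₂ y₂ : ℤ,
    Pt α β x₁ y₁ → Pt α β x₂ y₂ → Scale ℓ x₁ y₁ → Scale ℓ x₂ y₂ →
    Light α β S x₁ y₁ → Light α β S x₂ y₂ → Near α β S ℓ x₁ y₁ x₂ y₂ → x₁ * y₂ = x₂ * y₁

/-- The radicals of the light points of scale `ℓ`. -/
def LSet (α β : Fin d → ℤ) (S : Finset ℕ) (ℓ : ℝ) : Set ℕ :=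
  {R : ℕ | ∃ x y : ℤ, Pt α β x y ∧ Scale ℓ x y ∧ Light α β S x y ∧
    ∏ p ∈ (F α β x y).natAbs.primeFactors, p = R}

/-- BGAP: few light points. -/
def StmtBGAP : Prop := ∀ (d : ℕ) (α β : Fin d → ℤ), Good α β → ∃ (K : ℕ) (ℓ₀ : ℝ), 1 ≤ ℓ₀ ∧
  ∀ (S : Finset ℕ) (ℓ : ℝ), (∀ q ∈ S, q.Prime) → ℓ₀ ≤ ℓ →
    (LSet α β S ℓ).Finite ∧ (LSet α β S ℓ).ncard ≤ 2 ^ (K * (S.card + 1))

/-- BSGL: sizes, single primes are light. -/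
def StmtBSGL : Prop := ∀ (d : ℕ) (α β : Fin d → ℤ), Good α β → ∃ C₁ : ℝ, 1 ≤ C₁ ∧
  ∀ x y : ℤ, Pt α β x y → C₁ ≤ lH x y →
    (∀ p : ℕ, p.Prime → ((F α β x y).natAbs.factorization p : ℝ) * Real.log p ≤
      ((d : ℝ) - 17 / 8) * lH x y) ∧
    Real.log |(F α β x y : ℝ)| ≤ 5 / 2 * (((d : ℝ) - 17 / 8) * lH x y)

/-- BPRT: a light set. -/
def StmtBPRT : Prop := ∀ (P : Finset ℕ) (θ π : ℕ → ℝ) (τ : ℝ), 0 < τ →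
  (∀ p ∈ P, 0 ≤ θ p) → (∀ p ∈ P, 0 ≤ π p) → (∀ p ∈ P, π p ≤ τ) → ∑ p ∈ P, π p ≤ 5 / 2 * τ →
  ∃ s ⊆ P, ∑ p ∈ s, π p ≤ τ ∧ 1 / 5 * ∑ p ∈ P, θ p ≤ ∑ p ∈ s, θ p

/-- BMAIN: the theorem. -/
def StmtBMAIN : Prop := ∀ (d : ℕ) (α β : Fin d → ℤ), Good α β → ∀ δ ε : ℝ, 0 < δ → 0 < ε →
  ∃ C : ℝ, ∀ X : ℝ, 1 ≤ X →
  (({R : ℕ | (R : ℝ) ≤ X ∧ ∃ x y : ℤ, IsCoprime x y ∧ F α β x y ≠ 0 ∧
    ∏ p ∈ (F α β x y).natAbs.primeFactors, p = R ∧ Real.log (lH x y) ≤ X ^ δ}.ncard : ℕ) : ℝ) ≤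
      C * X ^ (4 / 5 + δ + ε)

end

end Pool.Agent.W223.RB
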